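import Mathlib
import Pool.Agent.Helper99.CBDefs
import Pool.Agent.Helper99.CBFinal

/-!
LIST 3-COLORING restricted to chordal bipartite graphs is solvable in polynomial time.

Idea: a proper 3-colouring `c` of a chordal bipartite graph has winding number zero along every
closed walk (chords cut long closed walks into 4-cycles), so it lifts to a height function
`h : V → ℕ` with `h ≡ c (mod 3)`, `|h u - h v| = 1` on edges and values in `{0, …, |V| + 1}`.
Hence the instance is a homomorphism problem to a path with unary constraints, which is solved
by arc consistency (take the minimum of each closed domain). The arc consistency procedure is
implemented on a multi-stack Turing machine with an explicit polynomial time bound.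
-/

namespace Pool.Agent.Results.MP_6659bd_lc.ListThreeColoringInP

open Pool.Agent.Helper99.CB

/-- There is a function `f`, computable in polynomial time by a (multi-stack) Turing machine on the
encodings of the instances, such that for every instance `I = (G, L)` whose graph is chordal
bipartite, `f I = true` iff `G` has a proper 3-colouring respecting the lists `L`. -/
theorem result : ∃ f : Instance → Bool,
    Nonempty (Turing.TM2ComputableInPolyTime Instance.encode encodeAnswer f) ∧
    ∀ I : Instance, IsChordalBipartite I.G → (f I = true ↔ I.ListColorable) :=
  Pool.Agent.Helper99.CBM.main

end Pool.Agent.Results.MP_6659bd_lc.ListThreeColoringInP
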